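import Pool.Agent.Lib52.SP.Stmt
import Pool.Agent.Lib52.SP.Bridge

set_option autoImplicit false

namespace Pool.Agent.Results.MP_10a7b3_an.NoContinuousField

open Pool.Agent.SuppLoewner

/-- There is a support point `f` of `S⁰(𝔹²)` such that no Herglotz vector field generating a
normal Loewner chain starting at `f` is continuous in time. -/
theorem result : ∃ f ∈ Supp (S0 (EuclideanSpace ℂ (Fin 2))),
    ∀ G : EuclideanSpace ℂ (Fin 2) → ℝ → EuclideanSpace ℂ (Fin 2), IsHerglotz G →
      ∀ F : ℝ → Hol (EuclideanSpace ℂ (Fin 2)),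
        IsNormalChain F → F 0 = f → Generates G F → ¬ IsContinuousField G :=
  main

end Pool.Agent.Results.MP_10a7b3_an.NoContinuousField
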